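import Mathlib

/-!
# Energies with an arbitrary partner in a commutative group

If every element of a commutative group has at most `R` representations as a product of `k = 2 ^ s`
factors from a finite family `p`, then for arbitrary weights
`‖u * v‖₂² ≤ R ^ (1 / k) ‖u‖₂² ‖v‖₂^(2 - 2 / k) ‖v‖₁^(2 / k)`
for the measure `u` with weights `w` on the family, and every finitely supported `v`.
-/

set_option autoImplicit false

namespace Pool.Agent.N551.EP

open Finset MonoidAlgebra

section Group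

variable {G : Type*} [CommGroup G]

/-- the involution of the group algebra given by the inversion of the group -/
noncomputable def st : MonoidAlgebra ℝ G →+* MonoidAlgebra ℝ G :=
  MonoidAlgebra.mapDomainRingHom ℝ (invMonoidHom : G →* G)

lemma st_single (g : G) (r : ℝ) : st (single g r) = single g⁻¹ r := by
  simp [st]

lemma coeff_st (x : MonoidAlgebra ℝ G) (g : G) : (st x).coeff g = x.coeff g⁻¹ := by
  induction x using MonoidAlgebra.induction_linear with
  | zero => simp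
  | add x y hx hy => simp [map_add, hx, hy]
  | single a r =>
    classical
    rw [st_single, coeff_single, coeff_single, Finsupp.single_apply, Finsupp.single_apply]
    simp [inv_eq_iff_eq_inv]

lemma st_st (x : MonoidAlgebra ℝ G) : st (st x) = x := by
  ext g
  rw [coeff_st, coeff_st, inv_inv]

/-- the trace form -/
lemma tr_eq (x y : MonoidAlgebra ℝ G) :
    (x * st y).coeff 1 = x.coeff.sum fun g r => r * y.coeff g := by
  rw [coeff_mul_apply_left]
  refine Finsupp.sum_congr fun g _ => ?_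
  rw [coeff_st]
  simp

lemma tr_cs (x y : MonoidAlgebra ℝ G) :
    (x * st y).coeff 1 ^ 2 ≤ (x * st x).coeff 1 * (y * st y).coeff 1 := by
  classical
  rw [tr_eq, tr_eq, tr_eq]
  set U := x.coeff.support ∪ y.coeff.support with hU
  have h1 : (x.coeff.sum fun g r => r * y.coeff g) = ∑ g ∈ U, x.coeff g * y.coeff g := by
    rw [Finsupp.sum]
    refine Finset.sum_subset subset_union_left fun g _ hg => ?_
    rw [Finsupp.notMem_support_iff.1 hg, zero_mul]
  have h2 : (x.coeff.sum fun g r => r * x.coeff g) = ∑ g ∈ U, x.coeff g ^ 2 := by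
    rw [Finsupp.sum]
    rw [Finset.sum_subset (s₂ := U) subset_union_left fun g _ hg => by
      rw [Finsupp.notMem_support_iff.1 hg, zero_mul]]
    exact Finset.sum_congr rfl fun g _ => (sq _).symm
  have h3 : (y.coeff.sum fun g r => r * y.coeff g) = ∑ g ∈ U, y.coeff g ^ 2 := by
    rw [Finsupp.sum]
    rw [Finset.sum_subset (s₂ := U) subset_union_right fun g _ hg => by
      rw [Finsupp.notMem_support_iff.1 hg, zero_mul]]
    exact Finset.sum_congr rfl fun g _ => (sq _).symm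
  rw [h1, h2, h3]
  exact Finset.sum_mul_sq_le_sq_mul_sq U _ _

lemma tr_nonneg (x : MonoidAlgebra ℝ G) : 0 ≤ (x * st x).coeff 1 := by
  rw [tr_eq, Finsupp.sum]
  exact Finset.sum_nonneg fun g _ => mul_self_nonneg _

/-- a coefficient of `x * st x` is at most the one at `1` -/
lemma coeff_le_tr (x : MonoidAlgebra ℝ G) (h : G) :
    (x * st x).coeff h ≤ (x * st x).coeff 1 := by
  have h1 : (x * st x).coeff h = (x * st (single h 1 * x)).coeff 1 := by
    rw [map_mul, st_single]
    rw [show x * (single h⁻¹ 1 * st x) = single h⁻¹ 1 * (x * st x) by ring]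
    rw [coeff_single_mul_apply]
    simp
  have h2 : ((single h 1 * x) * st (single h 1 * x)).coeff 1 = (x * st x).coeff 1 := by
    rw [map_mul, st_single]
    rw [show single h (1 : ℝ) * x * (single h⁻¹ 1 * st x) =
      single h (1 : ℝ) * single h⁻¹ 1 * (x * st x) by ring]
    rw [single_mul_single, mul_inv_cancel, mul_one, ← one_def, one_mul]
  have h3 := tr_cs x (single h 1 * x)
  rw [h2, ← h1] at h3
  nlinarith [tr_nonneg x]

/-- the energies -/
noncomputable def en (u v : MonoidAlgebra ℝ G) (j : ℕ) : ℝ :=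
  ((u * st u) ^ j * (v * st v)).coeff 1

lemma en_eq (u v : MonoidAlgebra ℝ G) (j : ℕ) :
    en u v j = ((u * st u) ^ j * v * st v).coeff 1 := by
  rw [en, mul_assoc]

lemma en_two (u v : MonoidAlgebra ℝ G) (j : ℕ) :
    en u v (2 * j) = (((u * st u) ^ j * v) * st ((u * st u) ^ j * v)).coeff 1 := by
  rw [en]
  congr 2
  rw [map_mul, map_pow, map_mul, st_st]
  ring

lemma en_sq_le (u v : MonoidAlgebra ℝ G) (j : ℕ) :
    en u v j ^ 2 ≤ en u v (2 * j) * en u v 0 := by
  rw [en_eq, en_two]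
  have h := tr_cs ((u * st u) ^ j * v) v
  rwa [show en u v 0 = (v * st v).coeff 1 by simp [en]]

lemma en_nonneg_zero (u v : MonoidAlgebra ℝ G) : 0 ≤ en u v 0 := by
  rw [show en u v 0 = (v * st v).coeff 1 by simp [en]]
  exact tr_nonneg v

lemma en_nonneg_two (u v : MonoidAlgebra ℝ G) (j : ℕ) : 0 ≤ en u v (2 * j) := by
  rw [en_two]
  exact tr_nonneg _

lemma en_one_nonneg (u v : MonoidAlgebra ℝ G) : 0 ≤ en u v 1 := by
  have : en u v 1 = ((u * v) * st (u * v)).coeff 1 := by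
    rw [en]
    congr 2
    rw [map_mul]
    ring
  rw [this]
  exact tr_nonneg _

/-- the iterated inequality of Cauchy and Schwarz -/
lemma en_pow_le (u v : MonoidAlgebra ℝ G) (s : ℕ) :
    en u v 1 ^ (2 ^ s) ≤ en u v (2 ^ s) * en u v 0 ^ (2 ^ s - 1) := by
  induction s with
  | zero => simp
  | succ s ih =>
    have h0 := en_nonneg_zero u v
    have h1 := en_one_nonneg u v
    have h2 := en_sq_le u v (2 ^ s)
    have e1 : 2 ^ (s + 1) = 2 ^ s * 2 := pow_succ 2 s
    have e3 : 1 ≤ 2 ^ s := Nat.one_le_two_pow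
    have e2 : 2 ^ (s + 1) - 1 = (2 ^ s - 1) * 2 + 1 := by omega
    have h3 : 0 ≤ en u v (2 ^ s) * en u v 0 ^ (2 ^ s - 1) := le_trans (by positivity) ih
    calc en u v 1 ^ (2 ^ (s + 1)) = (en u v 1 ^ (2 ^ s)) ^ 2 := by rw [e1, pow_mul]
      _ ≤ (en u v (2 ^ s) * en u v 0 ^ (2 ^ s - 1)) ^ 2 :=
          pow_le_pow_left₀ (by positivity) ih 2
      _ = en u v (2 ^ s) ^ 2 * en u v 0 ^ ((2 ^ s - 1) * 2) := by rw [mul_pow, ← pow_mul]
      _ ≤ (en u v (2 * 2 ^ s) * en u v 0) * en u v 0 ^ ((2 ^ s - 1) * 2) :=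
          mul_le_mul_of_nonneg_right h2 (by positivity)
      _ = en u v (2 ^ (s + 1)) * en u v 0 ^ (2 ^ (s + 1) - 1) := by
          rw [e2, show 2 ^ (s + 1) = 2 * 2 ^ s by omega, pow_succ (en u v 0)]
          ring

end Group

section Weights

variable {G : Type*} [CommGroup G] {α β : Type*}

/-- the measure with weights `w` at the points `p` -/
noncomputable def ms (S : Finset α) (p : α → G) (w : α → ℝ) : MonoidAlgebra ℝ G :=
  ∑ a ∈ S, single (p a) (w a)

lemma st_ms (S : Finset α) (p : α → G) (w : α → ℝ) :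
    st (ms S p w) = ∑ a ∈ S, single (p a)⁻¹ (w a) := by
  simp [ms, map_sum, st_single]

/-- the trace of a product with `v * st v` -/
lemma tr_mul_ms (Y : MonoidAlgebra ℝ G) (T : Finset β) (q : β → G) (f : β → ℝ) :
    (Y * (ms T q f * st (ms T q f))).coeff 1 =
      ∑ b ∈ T, ∑ b' ∈ T, Y.coeff ((q b)⁻¹ * q b') * (f b * f b') := by
  rw [st_ms, ms, Finset.sum_mul_sum, Finset.mul_sum, coeff_sum, Finsupp.finsetSum_apply]
  refine Finset.sum_congr rfl fun b _ => ?_
  rw [Finset.mul_sum, coeff_sum, Finsupp.finsetSum_apply]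
  refine Finset.sum_congr rfl fun b' _ => ?_
  rw [single_mul_single, coeff_mul_single_apply, one_mul, mul_inv_rev, inv_inv, mul_comm (q b')]

lemma en_le_of_coeff_le (u : MonoidAlgebra ℝ G) (T : Finset β) (q : β → G) (f : β → ℝ)
    (hf : ∀ b ∈ T, 0 ≤ f b) (k : ℕ) :
    en u (ms T q f) k ≤ (u ^ k * st (u ^ k)).coeff 1 * (∑ b ∈ T, f b) ^ 2 := by
  have e : (u * st u) ^ k = u ^ k * st (u ^ k) := by rw [map_pow, mul_pow]
  rw [en, e, tr_mul_ms]
  calc ∑ b ∈ T, ∑ b' ∈ T, (u ^ k * st (u ^ k)).coeff ((q b)⁻¹ * q b') * (f b * f b')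
      ≤ ∑ b ∈ T, ∑ b' ∈ T, (u ^ k * st (u ^ k)).coeff 1 * (f b * f b') :=
        Finset.sum_le_sum fun b hb => Finset.sum_le_sum fun b' hb' =>
          mul_le_mul_of_nonneg_right (coeff_le_tr _ _) (mul_nonneg (hf b hb) (hf b' hb'))
    _ = (u ^ k * st (u ^ k)).coeff 1 * (∑ b ∈ T, f b) ^ 2 := by
        rw [sq, Finset.sum_mul_sum, Finset.mul_sum]
        refine Finset.sum_congr rfl fun b _ => ?_
        rw [Finset.mul_sum]

lemma prod_single' {k : ℕ} (g : Fin k → G) (r : Fin k → ℝ) :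
    ∏ i, single (g i) (r i) = single (∏ i, g i) (∏ i, r i) := by
  induction k with
  | zero => simp [one_def]
  | succ k ih =>
    rw [Fin.prod_univ_succ, Fin.prod_univ_succ, Fin.prod_univ_succ, ih, single_mul_single]

lemma ms_pow [DecidableEq α] (S : Finset α) (p : α → G) (w : α → ℝ) (k : ℕ) :
    ms S p w ^ k = ms (Fintype.piFinset fun _ : Fin k => S) (fun x => ∏ i, p (x i))
      (fun x => ∏ i, w (x i)) := by
  have h : ms S p w ^ k = ∏ _i : Fin k, ms S p w := by simp
  rw [h]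
  simp only [ms]
  rw [Finset.prod_univ_sum]
  refine Finset.sum_congr rfl fun x _ => ?_
  rw [prod_single']

lemma tr_ms [DecidableEq G] (T : Finset β) (q : β → G) (f : β → ℝ) :
    (ms T q f * st (ms T q f)).coeff 1 =
      ∑ b ∈ T, ∑ b' ∈ T, if q b = q b' then f b * f b' else 0 := by
  have h := tr_mul_ms 1 T q f
  rw [one_mul] at h
  rw [h]
  refine Finset.sum_congr rfl fun b _ => Finset.sum_congr rfl fun b' _ => ?_
  rw [one_def, coeff_single, Finsupp.single_apply]
  by_cases hb : q b = q b'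
  · rw [if_pos (by rw [hb]; simp), if_pos hb, one_mul]
  · rw [if_neg (fun h => hb (by
      have := congrArg (fun z => q b * z) h
      simpa using this)), if_neg hb, zero_mul]

/-- a bound for the trace by the number of coincidences -/
lemma tr_ms_le [DecidableEq G] (T : Finset β) (q : β → G) (f : β → ℝ) (R : ℝ)
    (hR : ∀ b ∈ T, ((T.filter fun b' => q b = q b').card : ℝ) ≤ R) :
    (ms T q f * st (ms T q f)).coeff 1 ≤ R * ∑ b ∈ T, f b ^ 2 := by
  rw [tr_ms]
  have h1 : ∀ b ∈ T, ∀ b' ∈ T, (if q b = q b' then f b * f b' else 0) ≤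
      (if q b = q b' then f b ^ 2 / 2 else 0) + (if q b' = q b then f b' ^ 2 / 2 else 0) := by
    intro b _ b' _
    by_cases h : q b = q b'
    · rw [if_pos h, if_pos h, if_pos h.symm]
      nlinarith [sq_nonneg (f b - f b')]
    · rw [if_neg h, if_neg h, if_neg (fun h' => h h'.symm)]
      simp
  have h2 : ∑ b ∈ T, ∑ b' ∈ T, (if q b = q b' then f b ^ 2 / 2 else 0) ≤
      R * (∑ b ∈ T, f b ^ 2) / 2 := by
    calc ∑ b ∈ T, ∑ b' ∈ T, (if q b = q b' then f b ^ 2 / 2 else 0)
        = ∑ b ∈ T, ((T.filter fun b' => q b = q b').card : ℝ) * (f b ^ 2 / 2) := by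
          refine Finset.sum_congr rfl fun b _ => ?_
          rw [← Finset.sum_filter, Finset.sum_const, nsmul_eq_mul]
      _ ≤ ∑ b ∈ T, R * (f b ^ 2 / 2) :=
          Finset.sum_le_sum fun b hb => mul_le_mul_of_nonneg_right (hR b hb) (by positivity)
      _ = R * (∑ b ∈ T, f b ^ 2) / 2 := by
          rw [Finset.mul_sum, Finset.sum_div]
          exact Finset.sum_congr rfl fun b _ => by ring
  calc ∑ b ∈ T, ∑ b' ∈ T, (if q b = q b' then f b * f b' else 0)
      ≤ ∑ b ∈ T, ∑ b' ∈ T, ((if q b = q b' then f b ^ 2 / 2 else 0) +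
        (if q b' = q b then f b' ^ 2 / 2 else 0)) :=
        Finset.sum_le_sum fun b hb => Finset.sum_le_sum fun b' hb' => h1 b hb b' hb'
    _ = ∑ b ∈ T, ∑ b' ∈ T, (if q b = q b' then f b ^ 2 / 2 else 0) +
        ∑ b ∈ T, ∑ b' ∈ T, (if q b' = q b then f b' ^ 2 / 2 else 0) := by
        rw [← Finset.sum_add_distrib]
        exact Finset.sum_congr rfl fun b _ => Finset.sum_add_distrib
    _ = ∑ b ∈ T, ∑ b' ∈ T, (if q b = q b' then f b ^ 2 / 2 else 0) +
        ∑ b ∈ T, ∑ b' ∈ T, (if q b = q b' then f b ^ 2 / 2 else 0) := by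
        congr 1
        exact Finset.sum_comm
    _ ≤ R * ∑ b ∈ T, f b ^ 2 := by linarith

/-- the main inequality, in the group algebra -/
theorem core_tr [DecidableEq G] (s : ℕ) (S : Finset α) (p : α → G) (w : α → ℝ)
    (T : Finset β) (q : β → G) (hq : Set.InjOn q T) (f : β → ℝ) (hf : ∀ b ∈ T, 0 ≤ f b) (Q : ℝ)
    (hQ : (ms S p w ^ (2 ^ s) * st (ms S p w ^ (2 ^ s))).coeff 1 ≤ Q) :
    en (ms S p w) (ms T q f) 1 ^ (2 ^ s) ≤
      Q * (∑ b ∈ T, f b) ^ 2 * (∑ b ∈ T, f b ^ 2) ^ (2 ^ s - 1) := by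
  have h0 : en (ms S p w) (ms T q f) 0 ≤ 1 * ∑ b ∈ T, f b ^ 2 := by
    rw [show en (ms S p w) (ms T q f) 0 = (ms T q f * st (ms T q f)).coeff 1 by simp [en]]
    refine tr_ms_le T q f 1 fun b hb => ?_
    have : (T.filter fun b' => q b = q b') ⊆ {b} := by
      intro b' hb'
      rw [Finset.mem_filter] at hb'
      rw [Finset.mem_singleton]
      exact (hq hb hb'.1 hb'.2).symm
    have h := Finset.card_le_card this
    simpa using h
  have h1 := en_pow_le (ms S p w) (ms T q f) s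
  have h2 := en_le_of_coeff_le (ms S p w) T q f hf (2 ^ s)
  have hz := en_nonneg_zero (ms S p w) (ms T q f)
  have hRR : 0 ≤ Q := le_trans (tr_nonneg _) hQ
  rw [one_mul] at h0
  calc en (ms S p w) (ms T q f) 1 ^ (2 ^ s)
      ≤ en (ms S p w) (ms T q f) (2 ^ s) * en (ms S p w) (ms T q f) 0 ^ (2 ^ s - 1) := h1
    _ ≤ (Q * (∑ b ∈ T, f b) ^ 2) *
        en (ms S p w) (ms T q f) 0 ^ (2 ^ s - 1) := by
        refine mul_le_mul_of_nonneg_right (h2.trans ?_) (by positivity)
        exact mul_le_mul_of_nonneg_right hQ (by positivity)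
    _ ≤ (Q * (∑ b ∈ T, f b) ^ 2) *
        (∑ b ∈ T, f b ^ 2) ^ (2 ^ s - 1) :=
        mul_le_mul_of_nonneg_left (pow_le_pow_left₀ hz h0 _) (by positivity)

/-- the case of few representations -/
theorem core_pow [DecidableEq G] [DecidableEq α] (s : ℕ) (S : Finset α) (p : α → G) (w : α → ℝ)
    (T : Finset β) (q : β → G) (hq : Set.InjOn q T) (f : β → ℝ) (hf : ∀ b ∈ T, 0 ≤ f b) (R : ℝ)
    (hR : ∀ g : G, (((Fintype.piFinset fun _ : Fin (2 ^ s) => S).filter fun x =>
      g = ∏ i, p (x i)).card : ℝ) ≤ R) :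
    en (ms S p w) (ms T q f) 1 ^ (2 ^ s) ≤
      R * (∑ a ∈ S, w a ^ 2) ^ (2 ^ s) * (∑ b ∈ T, f b) ^ 2 *
        (∑ b ∈ T, f b ^ 2) ^ (2 ^ s - 1) := by
  refine core_tr s S p w T q hq f hf _ ?_
  rw [ms_pow]
  refine (tr_ms_le _ _ _ R fun x _ => hR _).trans (le_of_eq ?_)
  congr 1
  have h : (∑ a ∈ S, w a ^ 2) ^ (2 ^ s) = ∏ _i : Fin (2 ^ s), ∑ a ∈ S, w a ^ 2 := by simp
  rw [h, Finset.prod_univ_sum]
  exact Finset.sum_congr rfl fun x _ => (Finset.prod_pow _ _ _).symm

/-- the value of the first energy -/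
lemma en_one_eq [DecidableEq G] (S : Finset α) (p : α → G) (w : α → ℝ)
    (T : Finset β) (q : β → G) (f : β → ℝ) :
    en (ms S p w) (ms T q f) 1 =
      ∑ s ∈ S ×ˢ T, ∑ t ∈ S ×ˢ T, if p s.1 * q s.2 = p t.1 * q t.2 then
        (w s.1 * f s.2) * (w t.1 * f t.2) else 0 := by
  have e : ms S p w * ms T q f = ms (S ×ˢ T) (fun s => p s.1 * q s.2) (fun s => w s.1 * f s.2) := by
    rw [ms, ms, ms, Finset.sum_mul_sum, Finset.sum_product]
    refine Finset.sum_congr rfl fun a _ => Finset.sum_congr rfl fun b _ => ?_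
    rw [single_mul_single]
  have e2 : en (ms S p w) (ms T q f) 1 =
      ((ms S p w * ms T q f) * st (ms S p w * ms T q f)).coeff 1 := by
    rw [en]
    congr 2
    rw [map_mul]
    ring
  rw [e2, e, tr_ms]

end Weights

end Pool.Agent.N551.EP
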