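import Pool.Agent.N551.EP.Main

/-!
# Every partner: decomposition and alternatives
-/

set_option autoImplicit false

namespace Pool.Agent.N551.EP

open Finset Pool.Agent.Y359.DB Pool.Agent.Y359.LE
open scoped Pointwise

/-- Every finite set of integers is the union of a part with few additive coincidences with every
set of polynomial size, and a part with almost no multiplicative coincidences with any set. -/
theorem decomp (r : ℕ) (hr : 1 ≤ r) (ε b : ℝ) (hε : 0 < ε) (hε1 : ε ≤ 1) (hb : 0 < b) :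
    ∃ τ : ℝ, 0 < τ ∧ ∃ C : ℝ, 0 < C ∧ ∀ A : Finset ℤ, ∃ B ⊆ A,
      (∀ (F : Type) [Field F] [CharZero F] (X : Finset F), (X.card : ℝ) ≤ (A.card : ℝ) ^ b →
        (aE B X : ℝ) ≤ (A.card : ℝ) ^ (2 - τ) * X.card) ∧
      (∀ H ⊆ Fintype.piFinset (fun _ : Fin r => A \ B), (∀ x ∈ H, ∏ i, x i ≠ 0) →
        ∀ (F : Type) [Field F] [CharZero F] (Y : Finset F), (0 : F) ∉ Y →
        ∀ (w : (Fin r → ℤ) → ℝ) (f : F → ℝ), (∀ y ∈ Y, 0 ≤ f y) →
        wE H Y w f ≤ C * (A.card : ℝ) ^ ε *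
          (∑ x ∈ H, w x ^ 2) * ((∑ y ∈ Y, f y ^ 2) ^ (1 - ε) * ((∑ y ∈ Y, f y) ^ 2) ^ ε)) := by
  obtain ⟨s, hs⟩ := exists_pow ε hε
  have hk : 1 ≤ 2 ^ s * r := Nat.mul_pos (by positivity) hr
  obtain ⟨M, hM, C₀, hC₀, hdec⟩ := decomposition (2 ^ s * r) hk ε (2 * b) hε (by positivity)
  obtain ⟨t, ht⟩ : ∃ t : ℕ, M ≤ 2 ^ t := ⟨M, Nat.lt_two_pow_self.le⟩
  obtain ⟨C, hC⟩ : ∃ C : ℝ, C = max C₀ 1 := ⟨_, rfl⟩
  have hC1 : 1 ≤ C := by rw [hC]; exact le_max_right _ _
  have hCC : C₀ ≤ C := by rw [hC]; exact le_max_left _ _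
  have hk0 : (0 : ℝ) < 2 ^ t := by positivity
  refine ⟨b / 2 ^ t, by positivity, C, by linarith, ?_⟩
  intro A
  obtain ⟨B, hBA, hE, hF⟩ := hdec A
  refine ⟨B, hBA, ?_, ?_⟩
  · intro F _ _ X hX
    rcases A.eq_empty_or_nonempty with hA | hA
    · have hB : B = ∅ := Finset.subset_empty.1 (hA ▸ hBA)
      have : aE B X = 0 := by
        rw [aE, hB]
        simp
      rw [this]
      have h1 : 0 ≤ (A.card : ℝ) ^ (2 - b / 2 ^ t) := Real.rpow_nonneg (Nat.cast_nonneg _) _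
      have h2 : (0 : ℝ) ≤ X.card := Nat.cast_nonneg _
      simpa using mul_nonneg h1 h2
    · have hA0 : (0 : ℝ) < A.card := by exact_mod_cast Finset.card_pos.2 hA
      have h1 := aE_pow_le t B X
      have h2 := hE (2 ^ t) ht
      have hx0 : (0 : ℝ) ≤ X.card := Nat.cast_nonneg _
      have h3 : (aE B X : ℝ) ^ (2 ^ t) ≤ ((A.card : ℝ) ^ (2 - b / 2 ^ t) * X.card) ^ (2 ^ t) := by
        calc (aE B X : ℝ) ^ (2 ^ t) ≤ (En B (2 ^ t) : ℝ) * (X.card : ℝ) ^ (2 ^ t + 1) := h1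
          _ ≤ (A.card : ℝ) ^ (2 * ((2 ^ t : ℕ) : ℝ) - 2 * b) * (X.card : ℝ) ^ (2 ^ t + 1) :=
              mul_le_mul_of_nonneg_right h2 (by positivity)
          _ = (A.card : ℝ) ^ (2 * ((2 ^ t : ℕ) : ℝ) - 2 * b) * (X.card : ℝ) *
              (X.card : ℝ) ^ (2 ^ t) := by
              rw [pow_succ]
              ring
          _ ≤ (A.card : ℝ) ^ (2 * ((2 ^ t : ℕ) : ℝ) - 2 * b) * (A.card : ℝ) ^ b *
              (X.card : ℝ) ^ (2 ^ t) := by
              gcongr
          _ = ((A.card : ℝ) ^ (2 - b / 2 ^ t)) ^ (2 ^ t) * (X.card : ℝ) ^ (2 ^ t) := by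
              congr 1
              rw [← Real.rpow_add hA0, ← Real.rpow_natCast ((A.card : ℝ) ^ (2 - b / 2 ^ t)),
                ← Real.rpow_mul hA0.le]
              congr 1
              push_cast
              field_simp
              ring
          _ = _ := by rw [mul_pow]
      exact le_of_pow_le_pow_left₀ (by positivity)
        (mul_nonneg (Real.rpow_nonneg hA0.le _) hx0) h3
  · intro H hHA hH F _ _ Y hY w f hf
    rcases A.eq_empty_or_nonempty with hA | hA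
    · have hH0 : H = ∅ := by
        by_contra hne
        obtain ⟨x, hx⟩ := Finset.nonempty_iff_ne_empty.2 hne
        have := Fintype.mem_piFinset.1 (hHA hx) ⟨0, hr⟩
        rw [hA] at this
        simp at this
      have : wE H Y w f = 0 := by
        rw [wE, hH0]
        simp
      rw [this, hH0]
      simp
    have hA1 : (1 : ℝ) ≤ A.card := by exact_mod_cast Finset.card_pos.2 hA
    have hfac : ∀ u : ℤ, u ≠ 0 → ((Fac (rp (2 ^ s) fun _ : Fin r => A \ B) u).card : ℝ) ≤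
        (C * (A.card : ℝ) ^ ε) ^ (2 ^ s) := by
      intro u hu
      have h2 := hF u hu
      have h3 : 1 ≤ C * (A.card : ℝ) ^ ε := by
        have := Real.one_le_rpow hA1 hε.le
        nlinarith
      have h4 : C₀ * (A.card : ℝ) ^ ε ≤ C * (A.card : ℝ) ^ ε :=
        mul_le_mul_of_nonneg_right hCC (Real.rpow_nonneg (by linarith) _)
      exact (h2.trans h4).trans (le_self_pow₀ h3 (by positivity))
    exact transfer s ε hs hε1 (fun _ : Fin r => A \ B) (C * (A.card : ℝ) ^ ε)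
      (mul_nonneg (by linarith) (Real.rpow_nonneg (by linarith) _)) hfac H hHA hH Y hY w f hf

/-- the inequality of Cauchy and Schwarz for the fibres of a map -/
lemma card_sq_le {α β : Type*} [DecidableEq β] (Q : Finset α) (φ : α → β) :
    (Q.card : ℝ) ^ 2 ≤ ((Q.image φ).card : ℝ) *
      (((Q ×ˢ Q).filter fun p => φ p.1 = φ p.2).card : ℝ) := by
  have h1 : (Q.card : ℝ) = ∑ g ∈ Q.image φ, ((Q.filter fun x => φ x = g).card : ℝ) := by
    have := Finset.card_eq_sum_card_image φ Q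
    exact_mod_cast this
  have h2 : (((Q ×ˢ Q).filter fun p => φ p.1 = φ p.2).card : ℝ) =
      ∑ g ∈ Q.image φ, ((Q.filter fun x => φ x = g).card : ℝ) ^ 2 := by
    have h3 : ((Q ×ˢ Q).filter fun p => φ p.1 = φ p.2).card =
        ∑ g ∈ Q.image φ, ((((Q ×ˢ Q).filter fun p => φ p.1 = φ p.2)).filter
          fun p => φ p.1 = g).card := by
      refine Finset.card_eq_sum_card_fiberwise fun p hp => ?_
      rw [Finset.mem_coe, Finset.mem_filter, Finset.mem_product] at hp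
      exact Finset.mem_coe.2 (Finset.mem_image_of_mem φ hp.1.1)
    rw [h3, Nat.cast_sum]
    refine Finset.sum_congr rfl fun g _ => ?_
    rw [sq, ← Nat.cast_mul, ← Finset.card_product]
    congr 2
    ext p
    simp only [Finset.mem_filter, Finset.mem_product]
    constructor
    · rintro ⟨⟨⟨h1, h2⟩, h3⟩, h4⟩
      exact ⟨⟨h1, h4⟩, h2, by rw [← h3, h4]⟩
    · rintro ⟨⟨h1, h2⟩, h3, h4⟩
      exact ⟨⟨⟨h1, h3⟩, by rw [h2, h4]⟩, h2⟩
  rw [h1, h2]
  exact sq_sum_le_card_mul_sum_sq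

open Classical in
/-- the number of the coincidences, without weights -/
lemma wE_one {F : Type*} [Field F] {r : ℕ} (H : Finset (Fin r → ℤ)) (B : Finset F) :
    wE H B (fun _ => 1) (fun _ => 1) =
      ((((H ×ˢ B) ×ˢ (H ×ˢ B)).filter fun p =>
        ((∏ i, p.1.1 i : ℤ) : F) * p.1.2 = ((∏ i, p.2.1 i : ℤ) : F) * p.2.2).card : ℝ) := by
  rw [wE, ← Finset.sum_product', ← Finset.sum_filter]
  simp

/-- the bound for sets -/
lemma set_form {F : Type*} [Field F] {r : ℕ} (H : Finset (Fin r → ℤ)) (B : Finset F) (W ε : ℝ)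
    (hε : 0 < ε)
    (h : wE H B (fun _ => 1) (fun _ => 1) ≤ W * (∑ _x ∈ H, (1 : ℝ) ^ 2) *
      ((∑ _b ∈ B, (1 : ℝ) ^ 2) ^ (1 - ε) * ((∑ _b ∈ B, (1 : ℝ)) ^ 2) ^ ε)) :
    wE H B (fun _ => 1) (fun _ => 1) ≤ W * (H.card : ℝ) * (B.card : ℝ) ^ (1 + ε) := by
  refine h.trans (le_of_eq ?_)
  simp only [one_pow, Finset.sum_const, nsmul_eq_mul, mul_one]
  congr 1
  rcases B.eq_empty_or_nonempty with hB | hB
  · subst hB
    simp only [Finset.card_empty, Nat.cast_zero]
    rw [zero_pow two_ne_zero, Real.zero_rpow hε.ne', mul_zero, Real.zero_rpow (by linarith)]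
  · have hB0 : (0 : ℝ) < B.card := by exact_mod_cast Finset.card_pos.2 hB
    rw [← Real.rpow_natCast, ← Real.rpow_mul hB0.le, ← Real.rpow_add hB0]
    congr 1
    push_cast
    ring

/-- complex weights -/
lemma complex_le {F : Type*} [Field F] [DecidableEq F] {r : ℕ} (H : Finset (Fin r → ℤ))
    (B : Finset F) (w : (Fin r → ℤ) → ℂ) (f : F → ℂ) :
    ∑ g ∈ (H ×ˢ B).image (fun s => (∏ i, (s.1 i : F)) * s.2),
      ‖∑ s ∈ (H ×ˢ B).filter (fun s => (∏ i, (s.1 i : F)) * s.2 = g), w s.1 * f s.2‖ ^ 2 ≤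
      wE H B (fun x => ‖w x‖) (fun b => ‖f b‖) := by
  classical
  set φ : (Fin r → ℤ) × F → F := fun s => (∏ i, (s.1 i : F)) * s.2 with hφ
  set a : (Fin r → ℤ) × F → ℝ := fun s => ‖w s.1‖ * ‖f s.2‖ with ha
  have h1 : ∀ g ∈ (H ×ˢ B).image φ,
      ‖∑ s ∈ (H ×ˢ B).filter (fun s => φ s = g), w s.1 * f s.2‖ ^ 2 ≤
      ∑ s ∈ (H ×ˢ B).filter (fun s => φ s = g), ∑ t ∈ H ×ˢ B,
        if φ s = φ t then a s * a t else 0 := by
    intro g _
    have h2 : ‖∑ s ∈ (H ×ˢ B).filter (fun s => φ s = g), w s.1 * f s.2‖ ≤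
        ∑ s ∈ (H ×ˢ B).filter (fun s => φ s = g), a s := by
      refine (norm_sum_le _ _).trans (le_of_eq (Finset.sum_congr rfl fun s _ => ?_))
      rw [norm_mul]
    calc ‖∑ s ∈ (H ×ˢ B).filter (fun s => φ s = g), w s.1 * f s.2‖ ^ 2
        ≤ (∑ s ∈ (H ×ˢ B).filter (fun s => φ s = g), a s) ^ 2 :=
          pow_le_pow_left₀ (norm_nonneg _) h2 2
      _ = ∑ s ∈ (H ×ˢ B).filter (fun s => φ s = g),
          ∑ t ∈ (H ×ˢ B).filter (fun s => φ s = g), a s * a t := by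
          rw [sq, Finset.sum_mul_sum]
      _ = _ := by
          refine Finset.sum_congr rfl fun s hs => ?_
          rw [Finset.mem_filter] at hs
          rw [Finset.sum_filter]
          refine Finset.sum_congr rfl fun t _ => ?_
          rw [hs.2]
          by_cases h : φ t = g
          · rw [if_pos h, if_pos h.symm]
          · rw [if_neg h, if_neg (fun h' => h h'.symm)]
  refine (Finset.sum_le_sum h1).trans (le_of_eq ?_)
  rw [Finset.sum_fiberwise_of_maps_to (fun s hs => Finset.mem_image_of_mem φ hs)]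
  rw [wE]
  refine Finset.sum_congr rfl fun s _ => Finset.sum_congr rfl fun t _ => ?_
  simp only [hφ, ha]
  push_cast
  rfl

end Pool.Agent.N551.EP
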