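import Pool.Agent.N551.EP.Core
import Pool.Agent.Y359.DB.Growth
import Pool.Agent.Y359.LE.Main

/-!
# Sets of tuples of integers against an arbitrary partner in a field
-/

set_option autoImplicit false

namespace Pool.Agent.N551.EP

open Finset Pool.Agent.Y359.DB

open Classical in
/-- the weighted number of the coincidences `x_1 ⋯ x_r b = x_1' ⋯ x_r' b'` -/
noncomputable def wE {F : Type*} [Field F] {r : ℕ} (H : Finset (Fin r → ℤ)) (B : Finset F)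
    (w : (Fin r → ℤ) → ℝ) (f : F → ℝ) : ℝ :=
  ∑ s ∈ H ×ˢ B, ∑ t ∈ H ×ˢ B, if ((∏ i, s.1 i : ℤ) : F) * s.2 = ((∏ i, t.1 i : ℤ) : F) * t.2 then
    (w s.1 * f s.2) * (w t.1 * f t.2) else 0

/-- the sets of the `k`-fold repetition of a family -/
def rp {r : ℕ} (k : ℕ) (A : Fin r → Finset ℤ) : Fin (k * r) → Finset ℤ :=
  fun t => A (finProdFinEquiv.symm t).2

lemma prod_rp {r k : ℕ} (g : Fin r → ℝ) :
    ∏ t : Fin (k * r), g (finProdFinEquiv.symm t).2 = (∏ i, g i) ^ k := by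
  rw [← Equiv.prod_comp finProdFinEquiv]
  simp only [Equiv.symm_apply_apply]
  rw [Fintype.prod_prod_type]
  simp

/-- the number of the `k`-tuples of elements of `H` with given product -/
lemma card_tuples_le {r k : ℕ} (A : Fin r → Finset ℤ) (H : Finset (Fin r → ℤ))
    (hH : H ⊆ Fintype.piFinset A) (u : ℤ) :
    ((Fintype.piFinset fun _ : Fin k => H).filter fun X => ∏ j, ∏ i, X j i = u).card ≤
      (Fac (rp k A) u).card := by
  classical
  refine Finset.card_le_card_of_injOn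
    (fun X => fun t : Fin (k * r) => X (finProdFinEquiv.symm t).1 (finProdFinEquiv.symm t).2) ?_ ?_
  · intro X hX
    rw [Finset.mem_coe, Finset.mem_filter, Fintype.mem_piFinset] at hX
    rw [Finset.mem_coe, mem_Fac]
    refine ⟨fun t => ?_, ?_⟩
    · exact Fintype.mem_piFinset.1 (hH (hX.1 _)) _
    · rw [← Equiv.prod_comp finProdFinEquiv]
      simp only [Equiv.symm_apply_apply]
      rw [Fintype.prod_prod_type]
      exact hX.2
  · intro X _ Y _ hXY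
    funext j i
    have := congrFun hXY (finProdFinEquiv (j, i))
    simpa using this

section Field

variable {F : Type*} [Field F] [CharZero F]

open Classical in
/-- the unit given by a field element -/
noncomputable def un (x : F) : Fˣ := if h : x ≠ 0 then Units.mk0 x h else 1

lemma un_val {x : F} (h : x ≠ 0) : (un x : F) = x := by
  simp [un, h]

lemma wE_eq {r : ℕ} (H : Finset (Fin r → ℤ)) (hH : ∀ x ∈ H, ∏ i, x i ≠ 0) (B : Finset F)
    (hB : (0 : F) ∉ B) (w : (Fin r → ℤ) → ℝ) (f : F → ℝ) :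
    wE H B w f = en (ms H (fun x => un ((∏ i, x i : ℤ) : F)) w) (ms B un f) 1 := by
  classical
  rw [en_one_eq, wE]
  refine Finset.sum_congr rfl fun s hs => Finset.sum_congr rfl fun t ht => ?_
  rw [Finset.mem_product] at hs ht
  have h1 : ((∏ i, s.1 i : ℤ) : F) ≠ 0 := by exact_mod_cast hH _ hs.1
  have h2 : ((∏ i, t.1 i : ℤ) : F) ≠ 0 := by exact_mod_cast hH _ ht.1
  have h3 : s.2 ≠ 0 := fun h => hB (h ▸ hs.2)
  have h4 : t.2 ≠ 0 := fun h => hB (h ▸ ht.2)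
  have e : (un ((∏ i, s.1 i : ℤ) : F) * un s.2 = un ((∏ i, t.1 i : ℤ) : F) * un t.2) ↔
      ((∏ i, s.1 i : ℤ) : F) * s.2 = ((∏ i, t.1 i : ℤ) : F) * t.2 := by
    rw [Units.ext_iff, Units.val_mul, Units.val_mul, un_val h1, un_val h2, un_val h3, un_val h4]
  by_cases h : ((∏ i, s.1 i : ℤ) : F) * s.2 = ((∏ i, t.1 i : ℤ) : F) * t.2
  · rw [if_pos h, if_pos (e.2 h)]
  · rw [if_neg h, if_neg (fun h' => h (e.1 h'))]

lemma wE_nonneg {r : ℕ} (H : Finset (Fin r → ℤ)) (hH : ∀ x ∈ H, ∏ i, x i ≠ 0) (B : Finset F)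
    (hB : (0 : F) ∉ B) (w : (Fin r → ℤ) → ℝ) (f : F → ℝ) : 0 ≤ wE H B w f := by
  rw [wE_eq H hH B hB w f]
  exact en_one_nonneg _ _

/-- few factorisations imply a bound for the energy with every partner -/
theorem wE_pow_le {r : ℕ} (s : ℕ) (A : Fin r → Finset ℤ) (R : ℝ) (hR0 : 0 ≤ R)
    (hR : ∀ u : ℤ, u ≠ 0 → ((Fac (rp (2 ^ s) A) u).card : ℝ) ≤ R)
    (H : Finset (Fin r → ℤ)) (hHA : H ⊆ Fintype.piFinset A) (hH : ∀ x ∈ H, ∏ i, x i ≠ 0)
    (B : Finset F) (hB : (0 : F) ∉ B) (w : (Fin r → ℤ) → ℝ) (f : F → ℝ)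
    (hf : ∀ b ∈ B, 0 ≤ f b) :
    wE H B w f ^ (2 ^ s) ≤
      R * (∑ x ∈ H, w x ^ 2) ^ (2 ^ s) * (∑ b ∈ B, f b) ^ 2 *
        (∑ b ∈ B, f b ^ 2) ^ (2 ^ s - 1) := by
  classical
  rw [wE_eq H hH B hB w f]
  refine core_pow s H _ w B un ?_ f hf R ?_
  · intro x hx y hy hxy
    have hx0 : x ≠ 0 := fun h => hB (h ▸ hx)
    have hy0 : y ≠ 0 := fun h => hB (h ▸ hy)
    have := congrArg (fun z : Fˣ => (z : F)) hxy
    simpa [un_val hx0, un_val hy0] using this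
  · intro g
    rcases Finset.eq_empty_or_nonempty ((Fintype.piFinset fun _ : Fin (2 ^ s) => H).filter fun X =>
      g = ∏ j, un ((∏ i, X j i : ℤ) : F)) with h0 | ⟨X₀, hX₀⟩
    · rw [h0]
      simpa using hR0
    · have key : ∀ X ∈ (Fintype.piFinset fun _ : Fin (2 ^ s) => H),
          ((∏ j, un ((∏ i, X j i : ℤ) : F) : Fˣ) : F) = ((∏ j, ∏ i, X j i : ℤ) : F) := by
        intro X hX
        rw [Fintype.mem_piFinset] at hX
        rw [Units.coe_prod, Int.cast_prod]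
        refine Finset.prod_congr rfl fun j _ => un_val ?_
        exact_mod_cast hH _ (hX j)
      rw [Finset.mem_filter] at hX₀
      have hu : (∏ j, ∏ i, X₀ j i) ≠ 0 :=
        Finset.prod_ne_zero_iff.2 fun j _ => hH _ ((Fintype.mem_piFinset.1 hX₀.1) j)
      refine le_trans ?_ (hR _ hu)
      have h1 := card_tuples_le (k := 2 ^ s) A H hHA (∏ j, ∏ i, X₀ j i)
      have h2 : (Fintype.piFinset fun _ : Fin (2 ^ s) => H).filter (fun X =>
          g = ∏ j, un ((∏ i, X j i : ℤ) : F)) ⊆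
          (Fintype.piFinset fun _ : Fin (2 ^ s) => H).filter
            (fun X => ∏ j, ∏ i, X j i = ∏ j, ∏ i, X₀ j i) := by
        intro X hX
        rw [Finset.mem_filter] at hX ⊢
        refine ⟨hX.1, ?_⟩
        have h3 := key X hX.1
        have h4 := key X₀ hX₀.1
        rw [← hX.2] at h3
        rw [← hX₀.2] at h4
        exact Int.cast_injective (h3.symm.trans h4)
      exact_mod_cast (Finset.card_le_card h2).trans h1

/-- real exponents -/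
theorem root_form (s : ℕ) (E R W p1 p2 ε : ℝ) (hE : 0 ≤ E) (hR : 0 ≤ R) (hW : 0 ≤ W) (hp2 : 0 ≤ p2)
    (h12 : p2 ≤ p1 ^ 2) (hε : 1 / (2 ^ s : ℝ) ≤ ε) (hε1 : ε ≤ 1)
    (h : E ^ (2 ^ s) ≤ R ^ (2 ^ s) * W ^ (2 ^ s) * p1 ^ 2 * p2 ^ (2 ^ s - 1)) :
    E ≤ R * W * (p2 ^ (1 - ε) * (p1 ^ 2) ^ ε) := by
  have hk : (0 : ℝ) < 2 ^ s := by positivity
  have hp1 : 0 ≤ p1 ^ 2 := sq_nonneg p1
  have h1 : (p1 ^ 2 * p2 ^ (2 ^ s - 1)) ^ (1 / (2 ^ s : ℝ)) ≤ p2 ^ (1 - ε) * (p1 ^ 2) ^ ε := by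
    have e1 : (p2 ^ (2 ^ s - 1)) ^ (1 / (2 ^ s : ℝ)) = p2 ^ (1 - 1 / (2 ^ s : ℝ)) := by
      rw [← Real.rpow_natCast, ← Real.rpow_mul hp2]
      congr 1
      rw [Nat.cast_sub Nat.one_le_two_pow]
      push_cast
      field_simp
    rw [Real.mul_rpow hp1 (by positivity), e1]
    rcases eq_or_lt_of_le hp2 with h0 | h0
    · rw [← h0]
      rcases eq_or_lt_of_le hε1 with he | he
      · subst he
        rcases Nat.eq_zero_or_pos s with hs | hs
        · subst hs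
          simp
        · have : (1 : ℝ) - 1 / (2 ^ s : ℝ) ≠ 0 := by
            have h2 : (1 : ℝ) / 2 ^ s < 1 := by
              rw [div_lt_one hk]
              exact one_lt_pow₀ (by norm_num) (by omega)
            linarith
          rw [Real.zero_rpow this, mul_zero]
          positivity
      · have : (1 : ℝ) - 1 / (2 ^ s : ℝ) ≠ 0 := by linarith
        rw [Real.zero_rpow this, mul_zero]
        positivity
    · have hp1' : 0 < p1 ^ 2 := lt_of_lt_of_le h0 h12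
      have e2 : (p1 ^ 2) ^ ε = (p1 ^ 2) ^ (1 / (2 ^ s : ℝ)) * (p1 ^ 2) ^ (ε - 1 / (2 ^ s : ℝ)) := by
        rw [← Real.rpow_add hp1']
        congr 1
        ring
      have e3 : p2 ^ (1 - 1 / (2 ^ s : ℝ)) = p2 ^ (1 - ε) * p2 ^ (ε - 1 / (2 ^ s : ℝ)) := by
        rw [← Real.rpow_add h0]
        congr 1
        ring
      rw [e2, e3]
      have h3 : p2 ^ (ε - 1 / (2 ^ s : ℝ)) ≤ (p1 ^ 2) ^ (ε - 1 / (2 ^ s : ℝ)) :=
        Real.rpow_le_rpow hp2 h12 (by linarith)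
      calc (p1 ^ 2) ^ (1 / (2 ^ s : ℝ)) * (p2 ^ (1 - ε) * p2 ^ (ε - 1 / (2 ^ s : ℝ)))
          ≤ (p1 ^ 2) ^ (1 / (2 ^ s : ℝ)) * (p2 ^ (1 - ε) * (p1 ^ 2) ^ (ε - 1 / (2 ^ s : ℝ))) := by
            gcongr
        _ = _ := by ring
  have h2 : E = (E ^ (2 ^ s)) ^ (1 / (2 ^ s : ℝ)) := by
    rw [← Real.rpow_natCast, ← Real.rpow_mul hE]
    push_cast
    rw [mul_one_div_cancel hk.ne', Real.rpow_one]
  have h3 : R * W = ((R * W) ^ (2 ^ s)) ^ (1 / (2 ^ s : ℝ)) := by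
    rw [← Real.rpow_natCast, ← Real.rpow_mul (by positivity)]
    push_cast
    rw [mul_one_div_cancel hk.ne', Real.rpow_one]
  calc E = (E ^ (2 ^ s)) ^ (1 / (2 ^ s : ℝ)) := h2
    _ ≤ ((R * W) ^ (2 ^ s) * (p1 ^ 2 * p2 ^ (2 ^ s - 1))) ^ (1 / (2 ^ s : ℝ)) := by
        refine Real.rpow_le_rpow (by positivity) (h.trans (le_of_eq ?_)) (by positivity)
        rw [mul_pow]
        ring
    _ = (R * W) * (p1 ^ 2 * p2 ^ (2 ^ s - 1)) ^ (1 / (2 ^ s : ℝ)) := by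
        rw [Real.mul_rpow (by positivity) (by positivity), ← h3]
    _ ≤ R * W * (p2 ^ (1 - ε) * (p1 ^ 2) ^ ε) := mul_le_mul_of_nonneg_left h1 (by positivity)

/-- the transfer: few factorisations, every partner -/
theorem transfer {r : ℕ} (s : ℕ) (ε : ℝ) (hε : 1 / (2 ^ s : ℝ) ≤ ε) (hε1 : ε ≤ 1)
    (A : Fin r → Finset ℤ) (R : ℝ) (hR0 : 0 ≤ R)
    (hR : ∀ u : ℤ, u ≠ 0 → ((Fac (rp (2 ^ s) A) u).card : ℝ) ≤ R ^ (2 ^ s))
    (H : Finset (Fin r → ℤ)) (hHA : H ⊆ Fintype.piFinset A) (hH : ∀ x ∈ H, ∏ i, x i ≠ 0)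
    (B : Finset F) (hB : (0 : F) ∉ B) (w : (Fin r → ℤ) → ℝ) (f : F → ℝ)
    (hf : ∀ b ∈ B, 0 ≤ f b) :
    wE H B w f ≤ R * (∑ x ∈ H, w x ^ 2) *
      ((∑ b ∈ B, f b ^ 2) ^ (1 - ε) * ((∑ b ∈ B, f b) ^ 2) ^ ε) := by
  refine root_form s _ R _ _ _ ε (wE_nonneg H hH B hB w f) hR0
    (Finset.sum_nonneg fun x _ => sq_nonneg _) (Finset.sum_nonneg fun x _ => sq_nonneg _) ?_ hε hε1
    (wE_pow_le s A (R ^ (2 ^ s)) (by positivity) hR H hHA hH B hB w f hf)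
  -- ∑ f² ≤ (∑ f)²
  rw [sq, Finset.sum_mul]
  refine Finset.sum_le_sum fun b hb => ?_
  rw [sq]
  exact mul_le_mul_of_nonneg_left (Finset.single_le_sum hf hb) (hf b hb)

end Field

end Pool.Agent.N551.EP
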