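import Pool.Agent.N551.EP.Int

/-!
# Every partner: the four forms
-/

set_option autoImplicit false

namespace Pool.Agent.N551.EP

open Finset Pool.Agent.Y359.DB
open scoped Pointwise

/-- a power of `3 + log x` -/
lemma log_absorb (D δ : ℝ) (hD : 0 < D) (hδ : 0 < δ) (x : ℝ) (hx : 1 ≤ x) :
    (3 + Real.log x) ^ D ≤ (3 + D / δ) ^ D * x ^ δ := by
  have hx0 : 0 < x := by linarith
  have hl : 0 ≤ Real.log x := Real.log_nonneg hx
  have h1 : Real.log x ≤ x ^ (δ / D) / (δ / D) := Real.log_le_rpow_div hx0.le (by positivity)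
  have h2 : 1 ≤ x ^ (δ / D) := Real.one_le_rpow hx (by positivity)
  have h3 : 3 + Real.log x ≤ (3 + D / δ) * x ^ (δ / D) := by
    have : x ^ (δ / D) / (δ / D) = (D / δ) * x ^ (δ / D) := by
      field_simp
    rw [this] at h1
    nlinarith
  calc (3 + Real.log x) ^ D ≤ ((3 + D / δ) * x ^ (δ / D)) ^ D :=
        Real.rpow_le_rpow (by linarith) h3 hD.le
    _ = (3 + D / δ) ^ D * x ^ δ := by
        rw [Real.mul_rpow (by positivity) (by positivity), ← Real.rpow_mul hx0.le,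
          div_mul_cancel₀ _ hD.ne']

/-- there is a power of two above `1 / ε` -/
lemma exists_pow (ε : ℝ) (hε : 0 < ε) : ∃ s : ℕ, 1 / (2 ^ s : ℝ) ≤ ε := by
  obtain ⟨s, hs⟩ := pow_unbounded_of_one_lt (1 / ε) (by norm_num : (1 : ℝ) < 2)
  refine ⟨s, ?_⟩
  rw [div_le_iff₀ (by positivity)]
  rw [div_lt_iff₀ hε] at hs
  linarith

/-- sets with few sums, arbitrary weights -/
theorem few_sums (r : ℕ) (ε : ℝ) (hε : 0 < ε) (hε1 : ε ≤ 1) :
    ∃ C : ℝ, 0 < C ∧ ∀ A P : Fin r → Finset ℤ, (∀ i, (P i).Nonempty) →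
      ∀ H ⊆ Fintype.piFinset A, (∀ x ∈ H, ∏ i, x i ≠ 0) →
      ∀ (F : Type) [Field F] [CharZero F] (B : Finset F), (0 : F) ∉ B →
      ∀ (w : (Fin r → ℤ) → ℝ) (f : F → ℝ), (∀ b ∈ B, 0 ≤ f b) →
      wE H B w f ≤ (C * ∏ i, (((P i).card : ℝ) ^ ε * (((A i + P i).card : ℝ) / (P i).card) ^ C)) *
        (∑ x ∈ H, w x ^ 2) * ((∑ b ∈ B, f b ^ 2) ^ (1 - ε) * ((∑ b ∈ B, f b) ^ 2) ^ ε) := by
  obtain ⟨s, hs⟩ := exists_pow ε hε
  obtain ⟨C₀, hC₀, hdiv⟩ := divisor_bound (2 ^ s * r)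
  obtain ⟨e, he⟩ : ∃ e : ℝ, e = ε / 2 := ⟨_, rfl⟩
  have he0 : 0 < e := by rw [he]; positivity
  have he1 : e ≤ 1 := by rw [he]; linarith
  obtain ⟨D, hD⟩ : ∃ D : ℝ, D = Real.exp (C₀ / e) := ⟨_, rfl⟩
  have hD0 : 0 < D := by rw [hD]; exact Real.exp_pos _
  obtain ⟨L, hL⟩ : ∃ L : ℝ, L = (3 + D / e) ^ D := ⟨_, rfl⟩
  have hL0 : 0 < L := by rw [hL]; positivity
  refine ⟨max D (L ^ r), lt_max_of_lt_left hD0, ?_⟩
  intro A P hP H hHA hH F _ _ B hB w f hf
  obtain ⟨C, hC⟩ : ∃ C : ℝ, C = max D (L ^ r) := ⟨_, rfl⟩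
  rw [← hC]
  have hCD : D ≤ C := by rw [hC]; exact le_max_left _ _
  have hCL : L ^ r ≤ C := by rw [hC]; exact le_max_right _ _
  have hC0 : 0 < C := lt_of_lt_of_le hD0 hCD
  rcases H.eq_empty_or_nonempty with h0 | ⟨x₀, hx₀⟩
  · have : wE H B w f = 0 := by
      rw [wE, h0]
      simp
    rw [this]
    have h1 : 0 ≤ ∑ b ∈ B, f b ^ 2 := Finset.sum_nonneg fun _ _ => sq_nonneg _
    have h2 : 0 ≤ ∑ x ∈ H, w x ^ 2 := Finset.sum_nonneg fun _ _ => sq_nonneg _
    have h3 : 0 ≤ ∏ i, (((P i).card : ℝ) ^ ε * (((A i + P i).card : ℝ) / (P i).card) ^ C) :=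
      Finset.prod_nonneg fun i _ => mul_nonneg (Real.rpow_nonneg (Nat.cast_nonneg _) _)
        (Real.rpow_nonneg (div_nonneg (Nat.cast_nonneg _) (Nat.cast_nonneg _)) _)
    exact mul_nonneg (mul_nonneg (mul_nonneg hC0.le h3) h2)
      (mul_nonneg (Real.rpow_nonneg h1 _) (Real.rpow_nonneg (sq_nonneg _) _))
  have hAne : ∀ i, (A i).Nonempty := fun i => ⟨_, Fintype.mem_piFinset.1 (hHA hx₀) i⟩
  obtain ⟨β, hβ⟩ : ∃ β : Fin r → ℝ, ∀ i, β i = (((P i).card : ℝ) ^ e *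
      ((3 + Real.log (P i).card) * (((A i + P i).card : ℝ) / (P i).card)) ^ D) :=
    ⟨_, fun _ => rfl⟩
  have hP1 : ∀ i, (1 : ℝ) ≤ (P i).card := fun i => by
    exact_mod_cast Finset.card_pos.2 (hP i)
  have hK1 : ∀ i, (1 : ℝ) ≤ ((A i + P i).card : ℝ) / (P i).card := fun i => by
    rw [one_le_div (by linarith [hP1 i])]
    exact_mod_cast Finset.card_le_card_add_left (hAne i)
  have hβ0 : ∀ i, 0 ≤ β i := fun i => by
    rw [hβ]
    exact mul_nonneg (Real.rpow_nonneg (Nat.cast_nonneg _) _) (Real.rpow_nonneg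
      (mul_nonneg (by linarith [Real.log_nonneg (hP1 i)]) (by linarith [hK1 i])) _)
  have hfac : ∀ u : ℤ, u ≠ 0 → ((Fac (rp (2 ^ s) A) u).card : ℝ) ≤ (∏ i, β i) ^ (2 ^ s) := by
    intro u hu
    have h1 := hdiv e he0 he1 (rp (2 ^ s) A) (rp (2 ^ s) P) (fun t => hP _) u hu
    rw [← prod_rp β]
    refine h1.trans (le_of_eq (Finset.prod_congr rfl fun t _ => ?_))
    rw [hβ, hD]
    rfl
  have h1 := transfer s ε hs hε1 A (∏ i, β i) (Finset.prod_nonneg fun i _ => hβ0 i) hfac H hHA hH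
    B hB w f hf
  refine h1.trans ?_
  have h2 : ∏ i, β i ≤
      C * ∏ i, (((P i).card : ℝ) ^ ε * (((A i + P i).card : ℝ) / (P i).card) ^ C) := by
    have h3 : ∀ i, β i ≤
        L * (((P i).card : ℝ) ^ ε * (((A i + P i).card : ℝ) / (P i).card) ^ C) := by
      intro i
      have hp := hP1 i
      have hp0 : (0 : ℝ) < (P i).card := by linarith
      have hk := hK1 i
      have hl := Real.log_nonneg hp
      have h4 := log_absorb D e hD0 he0 ((P i).card : ℝ) hp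
      have h5 : (((A i + P i).card : ℝ) / (P i).card) ^ D ≤
          (((A i + P i).card : ℝ) / (P i).card) ^ C := Real.rpow_le_rpow_of_exponent_le hk hCD
      have h6 : ((P i).card : ℝ) ^ ε = ((P i).card : ℝ) ^ e * ((P i).card : ℝ) ^ e := by
        rw [← Real.rpow_add hp0]
        congr 1
        rw [he]
        ring
      rw [← hL] at h4
      rw [hβ, Real.mul_rpow (by linarith) (by linarith), h6]
      have h7 : 0 ≤ (((A i + P i).card : ℝ) / (P i).card) ^ D :=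
        Real.rpow_nonneg (by linarith) _
      have h8 : 0 ≤ L * ((P i).card : ℝ) ^ e := mul_nonneg hL0.le (Real.rpow_nonneg hp0.le _)
      calc ((P i).card : ℝ) ^ e * ((3 + Real.log (P i).card) ^ D *
            (((A i + P i).card : ℝ) / (P i).card) ^ D)
          ≤ ((P i).card : ℝ) ^ e * ((L * ((P i).card : ℝ) ^ e) *
            (((A i + P i).card : ℝ) / (P i).card) ^ C) :=
            mul_le_mul_of_nonneg_left (mul_le_mul h4 h5 h7 h8) (Real.rpow_nonneg hp0.le _)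
        _ = _ := by ring
    calc ∏ i, β i ≤ ∏ i, (L * (((P i).card : ℝ) ^ ε *
          (((A i + P i).card : ℝ) / (P i).card) ^ C)) :=
          Finset.prod_le_prod (fun i _ => hβ0 i) fun i _ => h3 i
      _ = L ^ r * ∏ i, (((P i).card : ℝ) ^ ε * (((A i + P i).card : ℝ) / (P i).card) ^ C) := by
          rw [Finset.prod_mul_distrib]
          simp
      _ ≤ _ := by
          refine mul_le_mul_of_nonneg_right hCL (Finset.prod_nonneg fun i _ => ?_)
          exact mul_nonneg (Real.rpow_nonneg (Nat.cast_nonneg _) _)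
            (Real.rpow_nonneg (by linarith [hK1 i]) _)
  have h7 : 0 ≤ ∑ b ∈ B, f b ^ 2 := Finset.sum_nonneg fun _ _ => sq_nonneg _
  have h8 : 0 ≤ ∑ x ∈ H, w x ^ 2 := Finset.sum_nonneg fun _ _ => sq_nonneg _
  exact mul_le_mul_of_nonneg_right (mul_le_mul_of_nonneg_right h2 h8)
    (mul_nonneg (Real.rpow_nonneg h7 _) (Real.rpow_nonneg (sq_nonneg _) _))

/-- growth of the sumset, or every partner -/
theorem growth (r : ℕ) (hr : 1 ≤ r) (ε : ℝ) (hε : 0 < ε) (hε1 : ε ≤ 1) :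
    ∃ c : ℝ, 0 < c ∧ ∀ A : Finset ℤ, A.Nonempty → ∀ m : ℕ, 2 ≤ m → (m : ℝ) ≤ Real.log A.card →
      (∀ H ⊆ Fintype.piFinset (fun _ : Fin r => A), (∀ x ∈ H, ∏ i, x i ≠ 0) →
        ∀ (F : Type) [Field F] [CharZero F] (B : Finset F), (0 : F) ∉ B →
        ∀ (w : (Fin r → ℤ) → ℝ) (f : F → ℝ), (∀ b ∈ B, 0 ≤ f b) →
        c * wE H B w f ≤ (A.card : ℝ) ^ ε *
          (∑ x ∈ H, w x ^ 2) * ((∑ b ∈ B, f b ^ 2) ^ (1 - ε) * ((∑ b ∈ B, f b) ^ 2) ^ ε)) ∨
      (A.card : ℝ) ^ (1 + c * Real.log m) ≤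
        ((Fintype.piFinset fun _ : Fin m => A).image fun f => ∑ i, f i).card := by
  obtain ⟨s, hs⟩ := exists_pow ε hε
  have hk : 1 ≤ 2 ^ s * r := Nat.mul_pos (by positivity) hr
  obtain ⟨c₀, hc₀, hg⟩ := growth_fac (2 ^ s * r) hk ε hε
  set c : ℝ := min c₀ 1 with hc
  have hc0 : 0 < c := lt_min hc₀ one_pos
  have hcc : c ≤ c₀ := min_le_left _ _
  have hc1 : c ≤ 1 := min_le_right _ _
  refine ⟨c, hc0, ?_⟩
  intro A hA m hm hmA
  have hA1 : (1 : ℝ) ≤ A.card := by exact_mod_cast Finset.card_pos.2 hA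
  have hm1 : (1 : ℝ) ≤ m := by exact_mod_cast (by omega : 1 ≤ m)
  rcases hg A hA m hm hmA with h1 | h1
  · left
    intro H hHA hH F _ _ B hB w f hf
    have hfac : ∀ u : ℤ, u ≠ 0 → ((Fac (rp (2 ^ s) fun _ : Fin r => A) u).card : ℝ) ≤
        ((A.card : ℝ) ^ ε / c) ^ (2 ^ s) := by
      intro u hu
      have h2 := h1 u hu
      have h3 : ((Fac (rp (2 ^ s) fun _ : Fin r => A) u).card : ℝ) ≤ (A.card : ℝ) ^ ε / c₀ := by
        rw [le_div_iff₀ hc₀, mul_comm]
        exact h2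
      have h4 : (A.card : ℝ) ^ ε / c₀ ≤ (A.card : ℝ) ^ ε / c := by gcongr
      have h5 : 1 ≤ (A.card : ℝ) ^ ε / c := by
        rw [one_le_div hc0]
        exact hc1.trans (Real.one_le_rpow hA1 hε.le)
      exact h3.trans (h4.trans (le_self_pow₀ h5 (by positivity)))
    have h6 := transfer s ε hs hε1 (fun _ : Fin r => A) ((A.card : ℝ) ^ ε / c) (by positivity)
      hfac H hHA hH B hB w f hf
    calc c * wE H B w f ≤ c * ((A.card : ℝ) ^ ε / c * (∑ x ∈ H, w x ^ 2) *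
          ((∑ b ∈ B, f b ^ 2) ^ (1 - ε) * ((∑ b ∈ B, f b) ^ 2) ^ ε)) :=
          mul_le_mul_of_nonneg_left h6 hc0.le
      _ = _ := by field_simp
  · right
    refine le_trans ?_ h1
    refine Real.rpow_le_rpow_of_exponent_le hA1 ?_
    have := Real.log_nonneg hm1
    nlinarith

open Classical in
/-- the additive energy of a set of integers and a set in a field -/
noncomputable def aE {F : Type*} [Field F] (A : Finset ℤ) (X : Finset F) : ℕ :=
  (((A ×ˢ X) ×ˢ (A ×ˢ X)).filter fun p => (p.1.1 : F) + p.1.2 = (p.2.1 : F) + p.2.2).card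

open Pool.Agent.Y359.LE in
/-- higher energies and an arbitrary partner -/
theorem aE_pow_le {F : Type*} [Field F] [CharZero F] (s : ℕ) (A : Finset ℤ) (X : Finset F) :
    (aE A X : ℝ) ^ (2 ^ s) ≤ (En A (2 ^ s) : ℝ) * (X.card : ℝ) ^ (2 ^ s + 1) := by
  classical
  have h := core_tr (G := Multiplicative F) s A (fun a : ℤ => Multiplicative.ofAdd (a : F))
    (fun _ => 1) X Multiplicative.ofAdd (fun _ _ _ _ h => Multiplicative.ofAdd.injective h)
    (fun _ => 1) (fun _ _ => zero_le_one) (En A (2 ^ s) : ℝ) (by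
      rw [ms_pow, tr_ms]
      simp only [Finset.prod_const_one, mul_one]
      rw [← Finset.sum_product', ← Finset.sum_filter]
      rw [Finset.sum_const, nsmul_eq_mul, mul_one, En]
      refine le_of_eq ?_
      congr 2
      refine Finset.filter_congr fun p _ => ?_
      rw [← ofAdd_sum, ← ofAdd_sum]
      rw [Multiplicative.ofAdd.injective.eq_iff]
      exact_mod_cast Iff.rfl)
  have e1 : en (ms A (fun a : ℤ => Multiplicative.ofAdd (a : F)) fun _ => 1)
      (ms X Multiplicative.ofAdd fun _ => 1) 1 = (aE A X : ℝ) := by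
    rw [en_one_eq]
    simp only [mul_one]
    rw [← Finset.sum_product', ← Finset.sum_filter, Finset.sum_const, nsmul_eq_mul, mul_one, aE]
    congr 2
  rw [e1] at h
  simp only [Finset.sum_const, nsmul_eq_mul, mul_one, one_pow] at h
  refine h.trans (le_of_eq ?_)
  rw [mul_assoc, ← pow_add]
  congr 2
  have := Nat.one_le_two_pow (n := s)
  omega

end Pool.Agent.N551.EP
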